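import Mathlib
import Pool.Agent.W751.CV.Stm

/-!
# A small critical value forces a small disc of small values (task CV-SMALL)
-/

set_option autoImplicit false

open Polynomial Filter Topology MeasureTheory Metric

namespace Pool.Agent.W947.CV

open Pool.Agent.W751.CD Pool.Agent.W751.CV

lemma double_zero (g : ℂ[X]) (c : ℂ) (h0 : g.eval c = 0) (h1 : (derivative g).eval c = 0) :
    ∃ h : ℂ[X], ∀ w, g.eval w = (w - c) ^ 2 * h.eval w := by
  obtain ⟨g1, hg1⟩ := dvd_iff_isRoot.mpr (show g.IsRoot c from h0)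
  have h2 : g1.eval c = 0 := by
    rw [hg1] at h1
    simpa using h1
  obtain ⟨g2, hg2⟩ := dvd_iff_isRoot.mpr (show g1.IsRoot c from h2)
  refine ⟨g2, fun w => ?_⟩
  rw [hg1, hg2]
  simp
  ring

theorem small : S_SMALL := by
  intro ρ s R N z c hρ hN hR hRs hc hw hd hPc
  have hs : 0 < s := by linarith
  have hN0 : (0 : ℝ) < N := by
    have : 0 < N := by omega
    exact_mod_cast this
  have hN1 : (1 : ℝ) ≤ N := by
    have : 1 ≤ N := by omega
    exact_mod_cast this
  have hNi : 0 < 1 / (N : ℝ) := by positivity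
  obtain ⟨h, hh⟩ := double_zero (P z - C ((P z).eval c)) c (by simp) (by simpa using hd)
  have hg : ∀ w, (P z).eval w - (P z).eval c = (w - c) ^ 2 * h.eval w := by
    intro w
    rw [← hh w]
    simp
  have hPs : ‖(P z).eval c‖ ≤ s := hw c (by linarith)
  -- the maximum principle
  have hmax : ∀ w ∈ closedBall c (1 / (N : ℝ)), ‖h.eval w‖ ≤ 2 * s * N ^ 2 := by
    intro w hwc
    rw [← closure_ball c hNi.ne'] at hwc
    refine Complex.norm_le_of_forall_mem_frontier_norm_le (f := fun x => h.eval x)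
      isBounded_ball (Polynomial.differentiable h).diffContOnCl ?_ hwc
    intro x hx
    rw [frontier_ball c hNi.ne', mem_sphere, dist_eq_norm] at hx
    have h1 : ‖x‖ ≤ ρ + 1 / N := by
      calc ‖x‖ = ‖c + (x - c)‖ := by rw [add_sub_cancel]
        _ ≤ ‖c‖ + ‖x - c‖ := norm_add_le _ _
        _ ≤ ρ + 1 / N := by rw [hx]; linarith
    have h2 : ‖(P z).eval x - (P z).eval c‖ ≤ 2 * s := by
      refine (norm_sub_le _ _).trans ?_
      linarith [hw x h1]
    rw [hg x, norm_mul, norm_pow, hx] at h2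
    have h3 : ‖h.eval x‖ = (N : ℝ) ^ 2 * ((1 / (N : ℝ)) ^ 2 * ‖h.eval x‖) := by
      field_simp
    show ‖h.eval x‖ ≤ 2 * s * N ^ 2
    rw [h3]
    nlinarith [sq_nonneg (N : ℝ)]
  set r : ℝ := Real.sqrt (R / (2 * s * N ^ 2)) with hr
  have hr2 : r ^ 2 = R / (2 * s * N ^ 2) := Real.sq_sqrt (by positivity)
  have hr0 : 0 ≤ r := Real.sqrt_nonneg _
  have hrN : r ≤ 1 / N := by
    apply le_of_sq_le_sq _ hNi.le
    rw [hr2, div_pow, one_pow, div_le_div_iff₀ (by positivity) (by positivity)]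
    nlinarith [sq_nonneg (N : ℝ)]
  have hsub : closedBall c r ⊆ {w : ℂ | ‖w‖ ≤ ρ + 1 ∧ ‖(P z).eval w‖ ≤ 2 * R} := by
    intro w hwc
    have h1 : ‖w - c‖ ≤ r := by
      rw [mem_closedBall, dist_eq_norm] at hwc
      exact hwc
    have hN2 : 1 / (N : ℝ) ≤ 1 := by
      rw [div_le_one hN0]
      exact hN1
    refine ⟨?_, ?_⟩
    · calc ‖w‖ = ‖c + (w - c)‖ := by rw [add_sub_cancel]
        _ ≤ ‖c‖ + ‖w - c‖ := norm_add_le _ _
        _ ≤ ρ + 1 := by linarith
    · have h2 := hmax w (by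
        rw [mem_closedBall, dist_eq_norm]
        linarith)
      have h3 : ‖(w - c) ^ 2 * h.eval w‖ ≤ R := by
        rw [norm_mul, norm_pow]
        calc ‖w - c‖ ^ 2 * ‖h.eval w‖ ≤ r ^ 2 * (2 * s * N ^ 2) := by gcongr
          _ = R := by
            rw [hr2]
            field_simp
      calc ‖(P z).eval w‖ = ‖(P z).eval c + (w - c) ^ 2 * h.eval w‖ := by
            rw [← hg w, add_sub_cancel]
        _ ≤ ‖(P z).eval c‖ + ‖(w - c) ^ 2 * h.eval w‖ := norm_add_le _ _
        _ ≤ 2 * R := by linarith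
  calc ENNReal.ofReal (Real.pi * R / (2 * s * N ^ 2)) = volume (closedBall c r) := by
        rw [Complex.volume_closedBall, ← ENNReal.ofReal_pow hr0, hr2]
        rw [← ENNReal.ofReal_coe_nnreal, ← ENNReal.ofReal_mul (by positivity)]
        congr 1
        rw [NNReal.coe_real_pi]
        ring
    _ ≤ _ := measure_mono hsub

end Pool.Agent.W947.CV
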